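import Pool.Agent.helper93.VN.SpecL

/-!
# Row LS0 of project VN (MP_07c750_an): solutions of the Jacobi equation which start with `J = 0`
-/

set_option autoImplicit false

open scoped MatrixGroups ContDiff Topology UpperHalfPlane ComplexConjugate ENNReal
open UpperHalfPlane MeasureTheory Filter Set

namespace Pool.Agent.VN

open Pool.Agent.RS Pool.Agent.VQ

noncomputable section

/-- monotone functions on `[0, 1]` -/
theorem LS0_mono (f f' : ℝ → ℝ) (h : ∀ t, HasDerivAt f (f' t) t) (hn : ∀ t, 0 ≤ t → t ≤ 1 → 0 ≤ f' t) :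
    ∀ s t, 0 ≤ s → s ≤ t → t ≤ 1 → f s ≤ f t := by
  have hm : MonotoneOn f (Icc (0 : ℝ) 1) := by
    refine monotoneOn_of_deriv_nonneg (convex_Icc 0 1) (fun t _ => (h t).continuousAt.continuousWithinAt)
      (fun t _ => (h t).differentiableAt.differentiableWithinAt) ?_
    intro t ht
    rw [interior_Icc] at ht
    rw [(h t).deriv]
    exact hn t ht.1.le ht.2.le
  intro s t hs hst ht
  exact hm ⟨hs, hst.trans ht⟩ ⟨hs.trans hst, ht⟩ hst

theorem LS0_pos (C : ℝ) (a q J W : ℝ → ℝ) (hC : 1 ≤ C)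
    (hb : ∀ t : ℝ, 0 ≤ t → 1 / C ≤ a t ∧ a t ≤ C ∧ 1 / C ≤ q t ∧ q t ≤ C)
    (hJ : ∀ t : ℝ, HasDerivAt J (a t * W t) t) (hW : ∀ t : ℝ, HasDerivAt W (q t * J t) t) (hJ0 : J 0 = 0) (hW0 : W 0 = 2) :
    ∀ t : ℝ, 0 ≤ t → t ≤ 1 → 0 ≤ J t ∧ 2 ≤ W t := by
  have hC0 : 0 < C := by linarith
  have hiC : 0 < 1 / C := by positivity
  -- J W is nondecreasing
  have h1 : ∀ t, 0 ≤ t → t ≤ 1 → 0 ≤ J t * W t := by
    intro t ht0 ht1
    have h := LS0_mono (fun t => J t * W t) (fun t => a t * W t * W t + J t * (q t * J t)) (fun t => (hJ t).mul (hW t))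
      (fun t h0 _ => by
        have h2 := hb t h0
        have ha : 0 ≤ a t := hiC.le.trans h2.1
        have hq : 0 ≤ q t := hiC.le.trans h2.2.2.1
        nlinarith [mul_nonneg ha (mul_self_nonneg (W t)), mul_nonneg hq (mul_self_nonneg (J t))]) 0 t le_rfl ht0 ht1
    simpa [hJ0] using h
  have h2 : ∀ t, 0 ≤ t → t ≤ 1 → 4 ≤ W t * W t := by
    intro t ht0 ht1
    have h := LS0_mono (fun t => W t * W t) (fun t => q t * J t * W t + W t * (q t * J t)) (fun t => (hW t).mul (hW t))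
      (fun t h0 h1' => by
        have h3 := hb t h0
        have hq : 0 ≤ q t := hiC.le.trans h3.2.2.1
        nlinarith [mul_nonneg hq (h1 t h0 h1')]) 0 t le_rfl ht0 ht1
    have h' : W 0 * W 0 ≤ W t * W t := h
    rw [hW0] at h'
    linarith
  have hcW : Continuous W := continuous_iff_continuousAt.2 fun t => (hW t).continuousAt
  have h3 : ∀ t, 0 ≤ t → t ≤ 1 → 0 < W t := by
    intro t ht0 ht1
    by_contra hneg
    have hneg' : W t ≤ 0 := not_lt.1 hneg
    have hivt : (0 : ℝ) ∈ W '' Icc 0 t := by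
      refine intermediate_value_Icc' ht0 hcW.continuousOn ⟨hneg', ?_⟩
      rw [hW0]; norm_num
    obtain ⟨s, hs, hs0⟩ := hivt
    have := h2 s hs.1 (hs.2.trans ht1)
    rw [hs0] at this
    norm_num at this
  intro t ht0 ht1
  have h4 := h3 t ht0 ht1
  refine ⟨?_, ?_⟩
  · by_contra hneg
    have hneg' : J t < 0 := not_le.1 hneg
    have := h1 t ht0 ht1
    nlinarith
  · have := h2 t ht0 ht1
    nlinarith

theorem LS0_S (C M : ℝ) (p J S : ℝ → ℝ) (hC : 1 ≤ C) (hp : ∀ t : ℝ, 0 ≤ t → |p t| ≤ C) (hS : ∀ t : ℝ, HasDerivAt S (p t * J t) t) (hS0 : S 0 = 0)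
    (hJ0 : ∀ t : ℝ, 0 ≤ t → t ≤ 1 → 0 ≤ J t) (hJM : ∀ t : ℝ, 0 ≤ t → t ≤ 1 → J t ≤ M) : ∀ t : ℝ, 0 ≤ t → t ≤ 1 → |S t| ≤ C * M * t := by
  have hC0 : 0 < C := by linarith
  have hk : ∀ t : ℝ, 0 ≤ t → t ≤ 1 → |p t * J t| ≤ C * M := by
    intro t h0 h1
    rw [abs_mul, abs_of_nonneg (hJ0 t h0 h1)]
    exact mul_le_mul (hp t h0) (hJM t h0 h1) (hJ0 t h0 h1) hC0.le
  have hlin : ∀ t : ℝ, HasDerivAt (fun t : ℝ => C * M * t) (C * M) t := by
    intro t
    have := (hasDerivAt_id t).const_mul (C * M)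
    simpa using this
  intro t ht0 ht1
  have hA := LS0_mono (fun t => C * M * t - S t) (fun t => C * M - p t * J t) (fun t => (hlin t).sub (hS t))
    (fun t h0 h1 => by linarith [(abs_le.1 (hk t h0 h1)).2]) 0 t le_rfl ht0 ht1
  have hB := LS0_mono (fun t => C * M * t + S t) (fun t => C * M + p t * J t) (fun t => (hlin t).add (hS t))
    (fun t h0 h1 => by linarith [(abs_le.1 (hk t h0 h1)).1]) 0 t le_rfl ht0 ht1
  have hA' : C * M * 0 - S 0 ≤ C * M * t - S t := hA
  have hB' : C * M * 0 + S 0 ≤ C * M * t + S t := hB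
  rw [hS0] at hA' hB'
  rw [abs_le]
  constructor <;> linarith

theorem LS0_tanh : Real.cosh 1 ≤ 3 / 2 * Real.sinh 1 := by
  rw [Real.cosh_eq, Real.sinh_eq]
  have h1 : 2.7 < Real.exp 1 := lt_trans (by norm_num) Real.exp_one_gt_d9
  have h2 : Real.exp (-1) * Real.exp 1 = 1 := by rw [← Real.exp_add]; simp
  have h3 : 0 < Real.exp (-1) := Real.exp_pos _
  have h4 : 5 * Real.exp (-1) ≤ Real.exp 1 := by
    nlinarith
  linarith

/-- Row LS0. -/
theorem LS0_proof : LS0_stmt := by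
  intro C a q p J W S hC _ _ _ hb hd hJ0 hW0 hS0
  have hC0 : 0 < C := by linarith
  have hiC : 0 < 1 / C := by positivity
  have hJ : ∀ t : ℝ, HasDerivAt J (a t * W t) t := fun t => (hd t).1
  have hW : ∀ t : ℝ, HasDerivAt W (q t * J t) t := fun t => (hd t).2.1
  have hS : ∀ t : ℝ, HasDerivAt S (p t * J t) t := fun t => (hd t).2.2
  have hpos := LS0_pos C a q J W hC (fun t ht => ⟨(hb t ht).1, (hb t ht).2.1, (hb t ht).2.2.1, (hb t ht).2.2.2.1⟩) hJ hW hJ0 hW0
  have hpJ : ∀ t : ℝ, 0 ≤ t → t ≤ 1 → 0 ≤ J t := fun t h0 h1 => (hpos t h0 h1).1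
  have hCi : C * (1 / C) = 1 := by field_simp
  -- lower bound
  have hlow : 2 / C ≤ J 1 := by
    have hlin : ∀ t : ℝ, HasDerivAt (fun t : ℝ => 2 / C * t) (2 / C) t := by
      intro t
      have := (hasDerivAt_id t).const_mul (2 / C)
      simpa using this
    have h := LS0_mono (fun t => J t - 2 / C * t) (fun t => a t * W t - 2 / C) (fun t => (hJ t).sub (hlin t))
      (fun t h0 h1 => by
        have h2 := (hb t h0).1
        have h3 := (hpos t h0 h1).2
        have h4 : 1 / C * 2 ≤ a t * W t := mul_le_mul h2 h3 (by norm_num) (hiC.le.trans h2)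
        have h5 : 1 / C * 2 = 2 / C := by ring
        linarith) 0 1 le_rfl zero_le_one le_rfl
    have h' : J 0 - 2 / C * 0 ≤ J 1 - 2 / C * 1 := h
    rw [hJ0] at h'
    linarith
  -- upper bound
  have hup : ∀ t : ℝ, 0 ≤ t → t ≤ 1 → J t + W t ≤ 2 * Real.exp C := by
    intro t ht0 ht1
    have hex : ∀ t : ℝ, HasDerivAt (fun t : ℝ => Real.exp (-(C * t))) (-C * Real.exp (-(C * t))) t := by
      intro t
      have h1 : HasDerivAt (fun t : ℝ => -(C * t)) (-C) t := by
        have h0 := (hasDerivAt_id' t).const_mul C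
        rw [mul_one] at h0
        exact h0.neg
      have h2 := h1.exp
      rw [mul_comm] at h2
      exact h2
    have h := LS0_mono (fun t => -((J t + W t) * Real.exp (-(C * t))))
      (fun t => -((a t * W t + q t * J t) * Real.exp (-(C * t)) + (J t + W t) * (-C * Real.exp (-(C * t)))))
      (fun t => (((hJ t).add (hW t)).mul (hex t)).neg)
      (fun t h0 h1 => by
        have h2 := hb t h0
        have h3 := hpos t h0 h1
        have h4 := Real.exp_pos (-(C * t))
        have h5 : a t * W t ≤ C * W t := mul_le_mul_of_nonneg_right h2.2.1 (by linarith)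
        have h6 : q t * J t ≤ C * J t := mul_le_mul_of_nonneg_right h2.2.2.2.1 h3.1
        have h7 : 0 ≤ (C * (J t + W t) - (a t * W t + q t * J t)) * Real.exp (-(C * t)) := mul_nonneg (by linarith) h4.le
        linarith) 0 t le_rfl ht0 ht1
    have h' : -((J 0 + W 0) * Real.exp (-(C * 0))) ≤ -((J t + W t) * Real.exp (-(C * t))) := h
    rw [hJ0, hW0, mul_zero, neg_zero, Real.exp_zero] at h'
    have h8 : (J t + W t) * Real.exp (-(C * t)) ≤ 2 := by linarith
    have h9 : Real.exp (-(C * t)) * Real.exp (C * t) = 1 := by rw [← Real.exp_add]; simp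
    have h10 : J t + W t ≤ 2 * Real.exp (C * t) := by
      have h11 := mul_le_mul_of_nonneg_right h8 (Real.exp_pos (C * t)).le
      rw [mul_assoc, h9, mul_one] at h11
      exact h11
    have h12 : Real.exp (C * t) ≤ Real.exp C := by
      apply Real.exp_le_exp.2
      nlinarith
    linarith
  -- J ≤ C W
  have hcone : J 1 ≤ C * W 1 := by
    have h := LS0_mono (fun t => C ^ 2 * (W t * W t) - J t * J t)
      (fun t => C ^ 2 * (q t * J t * W t + W t * (q t * J t)) - (a t * W t * J t + J t * (a t * W t)))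
      (fun t => (((hW t).mul (hW t)).const_mul (C ^ 2)).sub ((hJ t).mul (hJ t)))
      (fun t h0 h1 => by
        have h2 := hb t h0
        have h3 := hpos t h0 h1
        have h4 : a t ≤ C ^ 2 * q t := by
          have h5 : C ^ 2 * (1 / C) ≤ C ^ 2 * q t := mul_le_mul_of_nonneg_left h2.2.2.1 (by positivity)
          have h6 : C ^ 2 * (1 / C) = C := by rw [pow_two, mul_assoc, hCi, mul_one]
          linarith [h2.2.1]
        have h5 : 0 ≤ J t * W t := mul_nonneg h3.1 (by linarith)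
        have h6 : 0 ≤ (C ^ 2 * q t - a t) * (J t * W t) := mul_nonneg (by linarith) h5
        nlinarith) 0 1 le_rfl zero_le_one le_rfl
    have h' : C ^ 2 * (W 0 * W 0) - J 0 * J 0 ≤ C ^ 2 * (W 1 * W 1) - J 1 * J 1 := h
    rw [hJ0, hW0] at h'
    have hW1 := (hpos 1 zero_le_one le_rfl).2
    have h7 : J 1 * J 1 ≤ (C * W 1) * (C * W 1) := by nlinarith [sq_nonneg C]
    have h8 : 0 ≤ C * W 1 := by positivity
    exact abs_le_of_sq_le_sq' (by nlinarith) h8 |>.2
  -- W ≤ 3/2 C J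
  have hcone2 : W 1 ≤ 3 / 2 * C * J 1 := by
    have h := LS0_mono (fun t => C * (J t * Real.cosh t) - W t * Real.sinh t)
      (fun t => C * (a t * W t * Real.cosh t + J t * Real.sinh t) - (q t * J t * Real.sinh t + W t * Real.cosh t))
      (fun t => (((hJ t).mul (Real.hasDerivAt_cosh t)).const_mul C).sub ((hW t).mul (Real.hasDerivAt_sinh t)))
      (fun t h0 h1 => by
        have h2 := hb t h0
        have h3 := hpos t h0 h1
        have h4 : 0 ≤ Real.sinh t := Real.sinh_nonneg_iff.2 h0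
        have h5 : 0 < Real.cosh t := Real.cosh_pos t
        have h6 : 1 ≤ C * a t := by
          have := mul_le_mul_of_nonneg_left h2.1 hC0.le
          rw [hCi] at this
          exact this
        have h7 : 0 ≤ (C * a t - 1) * (W t * Real.cosh t) := mul_nonneg (by linarith) (mul_nonneg (by linarith) h5.le)
        have h8 : 0 ≤ (C - q t) * (J t * Real.sinh t) := mul_nonneg (by linarith [h2.2.2.2.1]) (mul_nonneg h3.1 h4)
        nlinarith) 0 1 le_rfl zero_le_one le_rfl
    have h' : C * (J 0 * Real.cosh 0) - W 0 * Real.sinh 0 ≤ C * (J 1 * Real.cosh 1) - W 1 * Real.sinh 1 := h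
    rw [hJ0, Real.sinh_zero, zero_mul, mul_zero, mul_zero, sub_zero] at h'
    have hs : 0 < Real.sinh 1 := Real.sinh_pos_iff.2 one_pos
    have hJ1 := hpJ 1 zero_le_one le_rfl
    have h9 : C * (J 1 * Real.cosh 1) ≤ C * (J 1 * (3 / 2 * Real.sinh 1)) :=
      mul_le_mul_of_nonneg_left (mul_le_mul_of_nonneg_left LS0_tanh hJ1) hC0.le
    have h10 : W 1 * Real.sinh 1 ≤ (3 / 2 * C * J 1) * Real.sinh 1 := by nlinarith
    exact le_of_mul_le_mul_right h10 hs
  -- J is monotone
  have hJm : ∀ t : ℝ, 0 ≤ t → t ≤ 1 → J t ≤ J 1 := by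
    intro t ht0 ht1
    exact LS0_mono J (fun t => a t * W t) hJ (fun t h0 h1 => mul_nonneg (hiC.le.trans (hb t h0).1) (by linarith [(hpos t h0 h1).2])) t 1 ht0 ht1 le_rfl
  have hp : ∀ t : ℝ, 0 ≤ t → |p t| ≤ C := fun t ht => (hb t ht).2.2.2.2
  have hS1 := LS0_S C (J 1) p J S hC hp hS hS0 hpJ hJm 1 zero_le_one le_rfl
  have hJup : ∀ t : ℝ, 0 ≤ t → t ≤ 1 → J t ≤ 2 * Real.exp C := fun t h0 h1 => by linarith [hup t h0 h1, (hpos t h0 h1).2]
  have hS2 := LS0_S C (2 * Real.exp C) p J S hC hp hS hS0 hpJ hJup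
  have hW1 := (hpos 1 zero_le_one le_rfl).2
  refine ⟨hlow, hJup 1 zero_le_one le_rfl, ?_, hcone2, ?_, ?_⟩
  · nlinarith
  · rw [mul_one] at hS1
    exact hS1
  · intro t ht0 ht1
    have h3 := hpos t ht0 ht1
    refine ⟨?_, ?_, ?_⟩
    · rw [abs_of_nonneg h3.1]; exact hJup t ht0 ht1
    · rw [abs_of_nonneg (by linarith)]
      linarith [hup t ht0 ht1]
    · have h4 := hS2 t ht0 ht1
      have h5 := Real.exp_pos C
      have h6 : C * (2 * Real.exp C) * t ≤ C * (2 * Real.exp C) * 1 := mul_le_mul_of_nonneg_left ht1 (by positivity)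
      linarith

end

end Pool.Agent.VN
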