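import Pool.Agent.helper99.VN.SpecU

/-!
# Row VBXN of project VN (MP_07c750_an): volume of a product of boxes
-/

set_option autoImplicit false

open scoped MatrixGroups ContDiff Topology UpperHalfPlane ComplexConjugate ENNReal
open UpperHalfPlane MeasureTheory Filter Set

namespace Pool.Agent.VN

open Pool.Agent.RS Pool.Agent.VQ

noncomputable section

/-- one factor -/
theorem VBXN_one (C : ℝ) (hC : 1 ≤ C) (hvol : ∀ s : ℝ, 0 < s → s ≤ 1 / 2 → mG (Bo s) ≤ ENNReal.ofReal (C * s ^ 3)) (hmeas : ∀ s, MeasurableSet (Bo s))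
    (hGMG : GMG_stmt) (R r : ℝ) (hr0 : 0 < r) (hr : r ≤ 1 / 4) (p : SL(2, ℝ) × ℝ) :
    mW R {q | Nb r p q} ≤ ENNReal.ofReal (2 * C * r ^ 4) := by
  have : SigmaFinite (mG : Measure SL(2, ℝ)) := hGMG.2.2.1
  have hset : {q : SL(2, ℝ) × ℝ | Nb r p q} = ((fun g : SL(2, ℝ) => p.1⁻¹ * g) ⁻¹' Bo r) ×ˢ Ioo (p.2 - r) (p.2 + r) := by
    ext ⟨g, E⟩
    constructor
    · rintro ⟨h1, h2⟩
      refine ⟨h1, ?_⟩
      rw [abs_lt] at h2
      constructor
      · linarith [h2.2]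
      · linarith [h2.1]
    · rintro ⟨h1, h2⟩
      refine ⟨h1, ?_⟩
      rw [abs_lt]
      constructor
      · linarith [h2.2]
      · linarith [h2.1]
  have hA : mG ((fun g : SL(2, ℝ) => p.1⁻¹ * g) ⁻¹' Bo r) = mG (Bo r) := by
    have h3 := A_GLI p.1⁻¹
    calc mG ((fun g : SL(2, ℝ) => p.1⁻¹ * g) ⁻¹' Bo r) = (Measure.map (fun g => p.1⁻¹ * g) mG) (Bo r) := by
          rw [Measure.map_apply (continuous_const_mul p.1⁻¹).measurable (hmeas r)]
      _ = mG (Bo r) := by rw [h3]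
  rw [hset, mW, Measure.prod_prod, hA]
  have h1 : mG (Bo r) ≤ ENNReal.ofReal (C * r ^ 3) := hvol r hr0 (by linarith)
  have h2 : (volume.restrict (Wi 2 R)) (Ioo (p.2 - r) (p.2 + r)) ≤ ENNReal.ofReal (2 * r) := by
    refine (Measure.restrict_le_self _).trans ?_
    rw [Real.volume_Ioo]
    apply ENNReal.ofReal_le_ofReal
    linarith
  calc mG (Bo r) * (volume.restrict (Wi 2 R)) (Ioo (p.2 - r) (p.2 + r)) ≤ ENNReal.ofReal (C * r ^ 3) * ENNReal.ofReal (2 * r) := mul_le_mul' h1 h2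
    _ = ENNReal.ofReal (2 * C * r ^ 4) := by
      rw [← ENNReal.ofReal_mul (by positivity)]
      congr 1
      ring

/-- Row VBXN. -/
theorem VBXN_proof (hVBO : VQ.VBO_stmt) (hGMG : GMG_stmt) : VBXN_stmt := by
  obtain ⟨C, hC, hvol, hmeas, -, -⟩ := hVBO
  refine ⟨2 * C, by linarith, fun R r n w hr0 hr => ?_⟩
  have : SigmaFinite (mG : Measure SL(2, ℝ)) := hGMG.2.2.1
  have hsf : SigmaFinite (mW R) := by
    unfold mW
    infer_instance
  have hset : {v : Fin n → SL(2, ℝ) × ℝ | ∀ i : Fin n, Nb r (w (i + 1)) (v i)} = Set.pi univ (fun i : Fin n => {q | Nb r (w (i + 1)) q}) := by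
    ext v
    constructor
    · intro h i _
      exact h i
    · intro h i
      exact h i (mem_univ i)
  rw [hset, mZ, Measure.pi_pi]
  calc ∏ i : Fin n, mW R {q | Nb r (w (i + 1)) q} ≤ ∏ _i : Fin n, ENNReal.ofReal (2 * C * r ^ 4) :=
        Finset.prod_le_prod' fun i _ => VBXN_one C hC hvol hmeas hGMG R r hr0 hr (w (i + 1))
    _ = ENNReal.ofReal ((2 * C * r ^ 4) ^ n) := by
        rw [Finset.prod_const, Finset.card_univ, Fintype.card_fin, ENNReal.ofReal_pow (by positivity)]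

end

end Pool.Agent.VN
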